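import Mathlib

set_option autoImplicit false

namespace Pool.Agent.Results.MP_85199e_an.Example

open Finset Filter Topology

noncomputable def c (n : ℕ) : ℝ :=
  8 * ((if n < 2 * 4 ^ Nat.log 4 n then (n - 4 ^ Nat.log 4 n) / 2 ^ Nat.log 4 n
    else (n - 2 * 4 ^ Nat.log 4 n) / (2 * 2 ^ Nat.log 4 n) : ℕ) : ℝ) / 2 ^ Nat.log 4 n

theorem four_pow (k : ℕ) : 4 ^ k = 2 ^ k * 2 ^ k := by rw [← mul_pow]; norm_num

theorem c_one (k j m : ℕ) (hj : j < 2 ^ k) (hm : m < 2 ^ k) :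
    c (4 ^ k + j * 2 ^ k + m) = 8 * j / 2 ^ k ∧ 4 ^ k + j * 2 ^ k + m < 4 * 4 ^ k := by
  have h1 : j * 2 ^ k + m < 4 ^ k := by rw [four_pow]; nlinarith
  have hl : Nat.log 4 (4 ^ k + j * 2 ^ k + m) = k :=
    Nat.log_eq_of_pow_le_of_lt_pow (by omega) (by rw [pow_succ]; omega)
  refine ⟨?_, by omega⟩
  rw [c, hl, if_pos (by omega), add_assoc, Nat.add_sub_cancel_left, add_comm,
    Nat.add_mul_div_right _ _ (by positivity), Nat.div_eq_of_lt hm, zero_add]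

theorem c_two (k j m : ℕ) (hj : j < 2 ^ k) (hm : m < 2 ^ k) :
    c (2 * (4 ^ k + j * 2 ^ k) + m) = 8 * j / 2 ^ k ∧
      2 * (4 ^ k + j * 2 ^ k) + m < 4 * 4 ^ k := by
  have h1 : j * 2 ^ k + 2 ^ k ≤ 4 ^ k := by rw [four_pow]; nlinarith
  have hl : Nat.log 4 (2 * (4 ^ k + j * 2 ^ k) + m) = k :=
    Nat.log_eq_of_pow_le_of_lt_pow (by omega) (by rw [pow_succ]; omega)
  refine ⟨?_, by omega⟩
  have e : 2 * (4 ^ k + j * 2 ^ k) + m - 2 * 4 ^ k = m + j * (2 * 2 ^ k) := by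
    have : j * (2 * 2 ^ k) = 2 * (j * 2 ^ k) := by ring
    omega
  rw [c, hl, if_neg (by omega), e,
    Nat.add_mul_div_right _ _ (by positivity), Nat.div_eq_of_lt (by omega), zero_add]

noncomputable def t (x : ℝ) (n : ℕ) : ℝ := (Real.sqrt n)⁻¹ * Real.cos (n * (x - c n))

theorem block (x y : ℝ) (k P : ℕ) (hy0 : 0 ≤ y) (hy : y ≤ 8 / 2 ^ (k + 5)) (hP0 : 0 < P)
    (hP : ∀ m < 2 ^ k, x - c (P + m) = y ∧ P + m < 4 * 4 ^ (k + 5))
    (hc : 1 / 2 ≤ |Real.cos (P * y)|) :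
    1 / 256 ≤ |∑ m ∈ range (2 ^ k), t x (P + m)| := by
  obtain ⟨σ, hσ, hσ2⟩ : ∃ σ : ℝ, |σ| = 1 ∧ 1 / 2 ≤ σ * Real.cos (P * y) := by
    rcases le_abs.mp hc with h | h
    · exact ⟨1, by simp, by linarith⟩
    · exact ⟨-1, by simp, by linarith⟩
  have h1 : ∀ m ∈ range (2 ^ k), (1 / 256) / 2 ^ k ≤ σ * t x (P + m) := by
    intro m hm
    have hm' := mem_range.mp hm
    obtain ⟨a1, a2⟩ := hP m hm'
    have hmR : (m : ℝ) ≤ 2 ^ k := by exact_mod_cast hm'.le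
    have b1 : |Real.cos (((P + m : ℕ) : ℝ) * y) - Real.cos (P * y)| ≤ 1 / 4 := by
      refine (Real.abs_cos_sub_cos_le _ _).trans ?_
      have : ((P + m : ℕ) : ℝ) * y - P * y = m * y := by push_cast; ring
      rw [this, abs_of_nonneg (by positivity)]
      calc (m : ℝ) * y ≤ 2 ^ k * (8 / 2 ^ (k + 5)) := by gcongr
        _ = 1 / 4 := by rw [pow_add]; field_simp; norm_num
    have b2 : 1 / 4 ≤ σ * Real.cos (((P + m : ℕ) : ℝ) * y) := by
      have := abs_le.mp (show |σ * (Real.cos (((P + m : ℕ) : ℝ) * y) - Real.cos (P * y))| ≤ 1 / 4 by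
        rw [abs_mul, hσ, one_mul]; exact b1)
      linarith [this.1]
    have b3 : (1 / 64) / 2 ^ k ≤ (Real.sqrt ((P + m : ℕ) : ℝ))⁻¹ := by
      have p0 : (0 : ℝ) < ((P + m : ℕ) : ℝ) := by exact_mod_cast (by omega : 0 < P + m)
      have : Real.sqrt ((P + m : ℕ) : ℝ) ≤ 64 * 2 ^ k := by
        rw [Real.sqrt_le_left (by positivity)]
        have a3 : P + m ≤ (64 * 2 ^ k) ^ 2 := by
          rw [pow_add, four_pow] at a2
          nlinarith
        exact_mod_cast a3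
      rw [div_div, one_div]
      exact inv_anti₀ (Real.sqrt_pos.mpr p0) this
    rw [t, a1, mul_left_comm]
    calc (1 / 256 : ℝ) / 2 ^ k = ((1 / 64) / 2 ^ k) * (1 / 4) := by ring
      _ ≤ _ := mul_le_mul b3 b2 (by norm_num) (by positivity)
  have h2 := sum_le_sum h1
  rw [sum_const, card_range, nsmul_eq_mul, ← mul_sum] at h2
  have h3 : ((2 ^ k : ℕ) : ℝ) * ((1 / 256) / 2 ^ k) = 1 / 256 := by push_cast; field_simp
  rw [h3] at h2
  refine h2.trans ((le_abs_self _).trans ?_)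
  rw [abs_mul, hσ, one_mul]

theorem big (x : ℝ) (h0 : 0 ≤ x) (h8 : x < 8) (k : ℕ) :
    ∃ P, k ≤ P ∧ 1 / 256 ≤ |∑ m ∈ range (2 ^ k), t x (P + m)| := by
  set j := ⌊x * 2 ^ (k + 5) / 8⌋₊ with hj
  have hL : (0 : ℝ) < 2 ^ (k + 5) := by positivity
  have j1 : (j : ℝ) ≤ x * 2 ^ (k + 5) / 8 := Nat.floor_le (by positivity)
  have j2 : x * 2 ^ (k + 5) / 8 < j + 1 := Nat.lt_floor_add_one _
  have j3 : j < 2 ^ (k + 5) := by
    have : (j : ℝ) < 2 ^ (k + 5) := by nlinarith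
    exact_mod_cast this
  set y := x - 8 * j / 2 ^ (k + 5) with hy
  have y0 : 0 ≤ y := by
    rw [hy, sub_nonneg, div_le_iff₀ hL]
    linarith
  have y1 : y ≤ 8 / 2 ^ (k + 5) := by
    rw [hy, sub_le_iff_le_add, ← add_div, le_div_iff₀ hL]
    linarith
  have hk : k ≤ 4 ^ (k + 5) := (Nat.le_add_right k 5).trans (Nat.lt_pow_self (by norm_num)).le
  have hm : ∀ m < 2 ^ k, m < 2 ^ (k + 5) := fun m hm =>
    hm.trans_le (Nat.pow_le_pow_right (by norm_num) (by omega))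
  have hp : 0 < 4 ^ (k + 5) := by positivity
  by_cases hc : 1 / 2 ≤ |Real.cos (((4 ^ (k + 5) + j * 2 ^ (k + 5) : ℕ) : ℝ) * y)|
  · refine ⟨_, by omega, block x y k _ y0 y1 (by omega) (fun m h => ?_) hc⟩
    obtain ⟨a, b⟩ := c_one (k + 5) j m j3 (hm m h)
    exact ⟨by rw [a], b⟩
  · refine ⟨2 * (4 ^ (k + 5) + j * 2 ^ (k + 5)), by omega,
      block x y k _ y0 y1 (by omega) (fun m h => ?_) ?_⟩
    · obtain ⟨a, b⟩ := c_two (k + 5) j m j3 (hm m h)
      exact ⟨by rw [a], b⟩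
    · rw [Nat.cast_mul, Nat.cast_ofNat, mul_assoc, Real.cos_two_mul]
      obtain ⟨a, b⟩ := abs_lt.mp (not_le.mp hc)
      rw [le_abs]
      right
      nlinarith

theorem result : ∃ a b : ℕ → ℝ,
    (∀ ε : ℝ, 0 < ε → Summable fun n => |a n| ^ (2 + ε) + |b n| ^ (2 + ε)) ∧
    ∀ x : ℝ, ¬ ∃ l : ℝ, Tendsto
      (fun N => ∑ n ∈ Icc 1 N, (a n * Real.cos (n * x) + b n * Real.sin (n * x))) atTop (𝓝 l) := by
  refine ⟨fun n => (Real.sqrt n)⁻¹ * Real.cos (n * c n), fun n => (Real.sqrt n)⁻¹ * Real.sin (n * c n),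
    fun ε hε => ?_, ?_⟩
  · have hs : Summable fun n : ℕ => ((n : ℝ) ^ (1 + ε / 2))⁻¹ :=
      Real.summable_nat_rpow_inv.mpr (by linarith)
    have key : ∀ (n : ℕ) (u : ℝ), |u| ≤ 1 →
        |(Real.sqrt n)⁻¹ * u| ^ (2 + ε) ≤ ((n : ℝ) ^ (1 + ε / 2))⁻¹ := by
      intro n u hu
      have h1 : |(Real.sqrt n)⁻¹ * u| ≤ (Real.sqrt n)⁻¹ := by
        rw [abs_mul, abs_of_nonneg (by positivity)]
        exact mul_le_of_le_one_right (by positivity) hu
      refine (Real.rpow_le_rpow (abs_nonneg _) h1 (by linarith)).trans (le_of_eq ?_)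
      rw [Real.inv_rpow (Real.sqrt_nonneg _), Real.sqrt_eq_rpow, ← Real.rpow_mul (Nat.cast_nonneg n)]
      congr 2
      ring
    refine Summable.of_nonneg_of_le (fun n => by positivity) (fun n => ?_) (hs.add hs)
    exact add_le_add (key n _ (Real.abs_cos_le_one _)) (key n _ (Real.abs_sin_le_one _))
  · rintro x ⟨l, hl⟩
    have hpi : 0 < 2 * Real.pi := by positivity
    set x0 := toIcoMod hpi 0 x with hx0
    have hm := toIcoMod_mem_Ico hpi 0 x
    have hterm : ∀ n : ℕ, (Real.sqrt n)⁻¹ * Real.cos (n * c n) * Real.cos (n * x) +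
        (Real.sqrt n)⁻¹ * Real.sin (n * c n) * Real.sin (n * x) = t x0 n := by
      intro n
      have e : (n : ℝ) * (x0 - c n) =
          (n * x - n * c n) - ((n * toIcoDiv hpi 0 x : ℤ) : ℝ) * (2 * Real.pi) := by
        rw [hx0, toIcoMod, zsmul_eq_mul]
        push_cast
        ring
      rw [t, e, Real.cos_sub_int_mul_two_pi, Real.cos_sub]
      ring
    simp only [hterm] at hl
    have hl2 : Tendsto (fun N => ∑ n ∈ range N, t x0 n) atTop (𝓝 l) := by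
      rw [← tendsto_add_atTop_iff_nat 1]
      refine hl.congr fun N => ?_
      rw [range_eq_Ico, sum_eq_sum_Ico_succ_bot (Nat.succ_pos N)]
      have : t x0 0 = 0 := by simp [t]
      rw [this, zero_add]
      rfl
    obtain ⟨N, hN⟩ := Metric.cauchySeq_iff.mp hl2.cauchySeq (1 / 256) (by norm_num)
    obtain ⟨P, hP, hb⟩ := big x0 hm.1 (by linarith [hm.2, Real.pi_le_four]) N
    have := hN (P + 2 ^ N) (le_add_right hP) P hP
    rw [Real.dist_eq, sum_range_add, add_sub_cancel_left] at this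
    linarith

end Pool.Agent.Results.MP_85199e_an.Example
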